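import Pool.Agent.R330.HE.Fin

set_option autoImplicit false

namespace Pool.Agent.Results.MP_2a1499_al.CommSquare

open Pool.Agent.R330.HE

universe u

/-- Over every field `k` (in particular every algebraically closed one) there are a finite acyclic
quiver `Q` (of type `D_4`) and an exceptional collection `χ` of `kQ`-modules which has a Hom-Ext
quiver, and for every Hom-Ext quiver of `χ` the ideal `R` of relations is not generated by
monomial relations. -/
theorem result (k : Type u) [Field k] :
    ∃ (Q : FQ) (m : ℕ) (χ : Fin m → Rep k Q), Q.Acyclic ∧ IsExcColl χ ∧ Nonempty (HEQ χ) ∧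
      ∀ D : HEQ χ, ¬ D.GenByMonomials :=
  ⟨D4, 4, X k, D4_acyclic, X_coll, exists_HEQ _, fun D => not_monomial D⟩

end Pool.Agent.Results.MP_2a1499_al.CommSquare
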